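import Mathlib

/-!
A renorming of a Hilbert space with a closed Chebyshev subspace of codimension two whose metric
projection is weakly continuous but not norm continuous.
-/

namespace Pool.Agent.Results.MP_97ba4e_an.WeakNotNorm

open Set Filter Topology

/-- `π` is the metric projection onto `G`, and `G` is a Chebyshev set: for every `x` the point
`π x` is the one and only nearest point to `x` in `G`. -/
def IsMetricProjection {E : Type*} [NormedAddCommGroup E] (G : Set E) (π : E → E) : Prop :=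
  ∀ x, π x ∈ G ∧ (∀ g ∈ G, ‖x - π x‖ ≤ ‖x - g‖) ∧
    ∀ g ∈ G, (∀ g' ∈ G, ‖x - g‖ ≤ ‖x - g'‖) → g = π x

/-- `π` is continuous from the weak topology to the weak topology. -/
def WeaklyContinuous {E : Type*} [NormedAddCommGroup E] [NormedSpace ℝ E] (π : E → E) : Prop :=
  Continuous fun x : WeakSpace ℝ E => toWeakSpace ℝ E (π ((toWeakSpace ℝ E).symm x))

/-! ### Scalar functions -/

noncomputable def P (a x : ℝ) : ℝ := max 0 (a + |x|)

noncomputable def xx (n : ℕ) (a b : ℝ) : ℝ := 2 ^ (n + 2) * (b - (1 / 2) ^ n * a)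

noncomputable def T (n : ℕ) (a b s : ℝ) : ℝ :=
  max (s - 2 * a + 2 * P a (xx n a b)) (-s + 2 * a + 2 * P (-a) (xx n a b))

noncomputable def w (n : ℕ) (a b : ℝ) : ℝ := 2 * a - P a (xx n a b) + P (-a) (xx n a b)

noncomputable def nn (n : ℕ) (a b : ℝ) : ℝ := P a (xx n a b) + P (-a) (xx n a b)

theorem P_nonneg (a x : ℝ) : 0 ≤ P a x := le_max_left _ _

theorem P_add (a x a' x' : ℝ) : P (a + a') (x + x') ≤ P a x + P a' x' := by
  have h1 := abs_add_le x x'
  have h2 := le_max_right 0 (a + |x|)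
  have h3 := le_max_right 0 (a' + |x'|)
  have h4 := le_max_left 0 (a + |x|)
  have h5 := le_max_left 0 (a' + |x'|)
  unfold P
  exact max_le (by linarith) (by linarith)

theorem P_mul {r : ℝ} (hr : 0 ≤ r) (a x : ℝ) : P (r * a) (r * x) = r * P a x := by
  unfold P
  rw [abs_mul, abs_of_nonneg hr, mul_max_of_nonneg _ _ hr]
  congr 1
  · ring
  · ring

theorem P_neg_right (a x : ℝ) : P a (-x) = P a x := by
  unfold P; rw [abs_neg]

theorem xx_add (n : ℕ) (a b a' b' : ℝ) : xx n (a + a') (b + b') = xx n a b + xx n a' b' := by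
  unfold xx; ring

theorem xx_mul (n : ℕ) (r a b : ℝ) : xx n (r * a) (r * b) = r * xx n a b := by
  unfold xx; ring

theorem T_add (n : ℕ) (a b s a' b' s' : ℝ) :
    T n (a + a') (b + b') (s + s') ≤ T n a b s + T n a' b' s' := by
  have h1 := P_add a (xx n a b) a' (xx n a' b')
  have h2 := P_add (-a) (xx n a b) (-a') (xx n a' b')
  have h3 := le_max_left (s - 2 * a + 2 * P a (xx n a b)) (-s + 2 * a + 2 * P (-a) (xx n a b))
  have h4 := le_max_right (s - 2 * a + 2 * P a (xx n a b)) (-s + 2 * a + 2 * P (-a) (xx n a b))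
  have h5 := le_max_left (s' - 2 * a' + 2 * P a' (xx n a' b'))
    (-s' + 2 * a' + 2 * P (-a') (xx n a' b'))
  have h6 := le_max_right (s' - 2 * a' + 2 * P a' (xx n a' b'))
    (-s' + 2 * a' + 2 * P (-a') (xx n a' b'))
  unfold T
  rw [xx_add]
  have h7 : -(a + a') = -a + -a' := by ring
  rw [h7]
  exact max_le (by linarith) (by linarith)

theorem T_mul_nonneg (n : ℕ) {r : ℝ} (hr : 0 ≤ r) (a b s : ℝ) :
    T n (r * a) (r * b) (r * s) = r * T n a b s := by
  unfold T
  rw [xx_mul, P_mul hr]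
  have : -(r * a) = r * -a := by ring
  rw [this, P_mul hr, mul_max_of_nonneg _ _ hr]
  congr 1 <;> ring

theorem T_neg (n : ℕ) (a b s : ℝ) : T n (-a) (-b) (-s) = T n a b s := by
  unfold T
  have : xx n (-a) (-b) = - xx n a b := by unfold xx; ring
  rw [this, P_neg_right, P_neg_right, neg_neg, neg_neg, max_comm]
  congr 1 <;> ring

theorem T_mul (n : ℕ) (r a b s : ℝ) : T n (r * a) (r * b) (r * s) = |r| * T n a b s := by
  rcases le_total 0 r with h | h
  · rw [abs_of_nonneg h, T_mul_nonneg n h]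
  · rw [abs_of_nonpos h, ← T_mul_nonneg n (neg_nonneg.mpr h), ← T_neg]
    congr 1 <;> ring

theorem T_eq (n : ℕ) (a b s : ℝ) : T n a b s = nn n a b + |s - w n a b| := by
  unfold T nn w
  set p := P a (xx n a b)
  set q := P (-a) (xx n a b)
  rcases le_total (s - (2 * a - p + q)) 0 with h | h
  · rw [abs_of_nonpos h, max_eq_right (by linarith)]; ring
  · rw [abs_of_nonneg h, max_eq_left (by linarith)]; ring

theorem nn_nonneg (n : ℕ) (a b : ℝ) : 0 ≤ nn n a b := add_nonneg (P_nonneg _ _) (P_nonneg _ _)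

theorem T_nonneg (n : ℕ) (a b s : ℝ) : 0 ≤ T n a b s := by
  rw [T_eq]; exact add_nonneg (nn_nonneg _ _ _) (abs_nonneg _)

theorem half_pow_le (n : ℕ) : (1 / 2 : ℝ) ^ n ≤ 1 := pow_le_one₀ (by norm_num) (by norm_num)

theorem xx_bound (n : ℕ) (a b : ℝ) : |xx n a b| ≤ 2 ^ (n + 2) * (|a| + |b|) := by
  unfold xx
  rw [abs_mul, abs_of_nonneg (by positivity : (0 : ℝ) ≤ 2 ^ (n + 2))]
  gcongr
  calc |b - (1 / 2) ^ n * a| ≤ |b| + |(1 / 2) ^ n * a| := abs_sub _ _
    _ = |b| + (1 / 2) ^ n * |a| := by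
        rw [abs_mul, abs_of_nonneg (by positivity : (0 : ℝ) ≤ (1 / 2) ^ n)]
    _ ≤ |b| + 1 * |a| := by gcongr; exact half_pow_le n
    _ = |a| + |b| := by ring

theorem P_bound (a x : ℝ) : P a x ≤ |a| + |x| := by
  unfold P
  exact max_le (by positivity) (by linarith [le_abs_self a])

theorem T_bound (n : ℕ) (a b s : ℝ) : T n a b s ≤ |s| + 2 ^ n * (12 * (|a| + |b|)) := by
  have h1 := P_bound a (xx n a b)
  have h2 := P_bound (-a) (xx n a b)
  have h3 := xx_bound n a b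
  rw [abs_neg] at h2
  have h4 : (1 : ℝ) ≤ 2 ^ n := one_le_pow₀ (by norm_num)
  have h5 : (2 : ℝ) ^ (n + 2) = 4 * 2 ^ n := by ring
  rw [h5] at h3
  have h6 : |a| ≤ 2 ^ n * (|a| + |b|) := by nlinarith [abs_nonneg a, abs_nonneg b]
  have h7 := le_abs_self s
  have h8 := neg_abs_le s
  have h9 := le_abs_self a
  have h10 := neg_abs_le a
  unfold T
  refine max_le ?_ ?_ <;> nlinarith

theorem w_bound (n : ℕ) (a b : ℝ) : |w n a b| ≤ |a| := by
  unfold w P
  set x := xx n a b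
  have hx := abs_nonneg x
  rcases le_total 0 a with ha | ha
  · rw [abs_of_nonneg ha, max_eq_right (by linarith : 0 ≤ a + |x|)]
    rcases le_total 0 (-a + |x|) with h | h
    · rw [max_eq_right h, abs_le]; constructor <;> linarith
    · rw [max_eq_left h, abs_le]; constructor <;> linarith
  · rw [abs_of_nonpos ha, max_eq_right (by linarith : 0 ≤ -a + |x|)]
    rcases le_total 0 (a + |x|) with h | h
    · rw [max_eq_right h, abs_le]; constructor <;> linarith
    · rw [max_eq_left h, abs_le]; constructor <;> linarith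

theorem w_zero_of (n : ℕ) (a b : ℝ) (h : |a| ≤ |xx n a b|) : w n a b = 0 := by
  unfold w P
  have h1 := le_abs_self a
  have h2 := neg_abs_le a
  rw [max_eq_right (by linarith), max_eq_right (by linarith)]
  ring

theorem w_support {n : ℕ} {a b : ℝ} (h : w n a b ≠ 0) :
    |b - (1 / 2) ^ n * a| < (1 / 4) * ((1 / 2) ^ n * |a|) := by
  have h1 : |xx n a b| < |a| := by
    by_contra hc
    exact h (w_zero_of n a b (not_lt.mp hc))
  unfold xx at h1
  rw [abs_mul, abs_of_nonneg (by positivity : (0 : ℝ) ≤ 2 ^ (n + 2))] at h1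
  have h2 : (0 : ℝ) < (1 / 2) ^ n := by positivity
  have h3 : (2 : ℝ) ^ (n + 2) * (1 / 2) ^ n = 4 := by
    rw [pow_add, mul_assoc, mul_comm ((2 : ℝ) ^ 2), ← mul_assoc, ← mul_pow]
    norm_num
  calc |b - (1 / 2) ^ n * a| = (1 / 4) * ((1 / 2) ^ n * (2 ^ (n + 2) * |b - (1 / 2) ^ n * a|)) := by
        rw [← mul_assoc ((1 / 2 : ℝ) ^ n), mul_comm ((1 / 2 : ℝ) ^ n) (2 ^ (n + 2)), h3]; ring
    _ < (1 / 4) * ((1 / 2) ^ n * |a|) := by
        have : (1 / 2 : ℝ) ^ n * (2 ^ (n + 2) * |b - (1 / 2) ^ n * a|) < (1 / 2) ^ n * |a| :=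
          mul_lt_mul_of_pos_left h1 h2
        linarith

theorem w_support_lt {m n : ℕ} (hmn : m < n) {a b : ℝ} (hm : w m a b ≠ 0) (hn : w n a b ≠ 0) :
    False := by
  have h1 := w_support hm
  have h2 := w_support hn
  have ha : 0 < |a| := by
    by_contra hc
    have : |a| = 0 := le_antisymm (not_lt.mp hc) (abs_nonneg _)
    rw [this] at h1
    have := abs_nonneg (b - (1 / 2) ^ m * a)
    linarith
  have hp : (1 / 2 : ℝ) ^ n ≤ (1 / 2) ^ m * (1 / 2) := by
    rw [← pow_succ]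
    exact pow_le_pow_of_le_one (by norm_num) (by norm_num) hmn
  have hpm : (0 : ℝ) < (1 / 2) ^ m := by positivity
  have h3 : |((1 / 2 : ℝ) ^ m - (1 / 2) ^ n) * a| <
      (1 / 4) * ((1 / 2) ^ m * |a|) + (1 / 4) * ((1 / 2) ^ n * |a|) := by
    calc |((1 / 2 : ℝ) ^ m - (1 / 2) ^ n) * a|
        = |(b - (1 / 2) ^ n * a) - (b - (1 / 2) ^ m * a)| := by congr 1; ring
      _ ≤ |b - (1 / 2) ^ n * a| + |b - (1 / 2) ^ m * a| := abs_sub _ _
      _ < _ := by linarith
  rw [abs_mul, abs_of_nonneg (by linarith : (0 : ℝ) ≤ (1 / 2) ^ m - (1 / 2) ^ n)] at h3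
  have h4 : ((1 / 2 : ℝ) ^ m - (1 / 2) ^ n) <
      (1 / 4) * (1 / 2) ^ m + (1 / 4) * (1 / 2) ^ n := by
    by_contra hc
    have := mul_le_mul_of_nonneg_right (not_lt.mp hc) ha.le
    linarith
  linarith

theorem w_unique {m n : ℕ} {a b : ℝ} (hm : w m a b ≠ 0) (hn : w n a b ≠ 0) : m = n := by
  rcases lt_trichotomy m n with h | h | h
  · exact (w_support_lt h hm hn).elim
  · exact h
  · exact (w_support_lt h hn hm).elim

/-! ### The space -/

abbrev l2 : Type := lp (fun _ : ℕ => ℝ) 2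

theorem w_mem (a b : ℝ) : Memℓp (fun n => w n a b : ∀ _ : ℕ, ℝ) 2 := by
  have h0 : Memℓp (fun n => w n a b : ∀ _ : ℕ, ℝ) 0 := by
    apply memℓp_zero
    by_cases h : ∃ n, w n a b ≠ 0
    · obtain ⟨n, hn⟩ := h
      refine (finite_singleton n).subset ?_
      intro m hm
      exact w_unique hm hn
    · push Not at h
      have : {i : ℕ | w i a b ≠ 0} = ∅ := by
        ext i; simp [h i]
      rw [this]
      exact finite_empty
  exact h0.of_exponent_ge zero_le

noncomputable def wv (a b : ℝ) : l2 := ⟨fun n => w n a b, w_mem a b⟩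

theorem wv_apply (a b : ℝ) (n : ℕ) : wv a b n = w n a b := rfl

theorem wv_cases (a b : ℝ) : wv a b = 0 ∨ ∃ n, wv a b = lp.single 2 n (w n a b) := by
  by_cases h : ∃ n, w n a b ≠ 0
  · obtain ⟨n, hn⟩ := h
    right
    refine ⟨n, ?_⟩
    ext m
    rw [wv_apply]
    by_cases hmn : m = n
    · subst hmn; simp
    · have : w m a b = 0 := by
        by_contra hm
        exact hmn (w_unique hm hn)
      rw [this]
      simp [hmn]
  · push Not at h
    left
    ext m
    rw [wv_apply, h m]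
    rfl

theorem wv_norm (a b : ℝ) : ‖wv a b‖ ≤ |a| := by
  rcases wv_cases a b with h | ⟨n, h⟩
  · rw [h, norm_zero]; exact abs_nonneg _
  · rw [h, lp.norm_single (by norm_num)]
    exact w_bound n a b

/-- The carrier of the counterexample: `ℝ × ℝ × ℓ²` as a vector space. -/
def X : Type := ℝ × ℝ × l2

noncomputable instance : AddCommGroup X := inferInstanceAs (AddCommGroup (ℝ × ℝ × l2))
noncomputable instance : Module ℝ X := inferInstanceAs (Module ℝ (ℝ × ℝ × l2))

theorem coord_le (h : l2) (n : ℕ) : |h n| ≤ ‖h‖ := lp.norm_apply_le_norm (by norm_num) h n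

theorem summ (a b : ℝ) (h : l2) : Summable fun n : ℕ => (1 / 8 : ℝ) ^ n * T n a b (h n) := by
  have h1 : Summable fun n : ℕ => (1 / 4 : ℝ) ^ n * (‖h‖ + 12 * (|a| + |b|)) :=
    (summable_geometric_of_lt_one (by norm_num) (by norm_num)).mul_right _
  refine Summable.of_nonneg_of_le (fun n => mul_nonneg (by positivity) (T_nonneg _ _ _ _)) ?_ h1
  intro n
  have h2 := T_bound n a b (h n)
  have h3 := coord_le h n
  have h4 : (1 / 8 : ℝ) ^ n * 2 ^ n = (1 / 4) ^ n := by
    rw [← mul_pow]; norm_num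
  have h5 : (1 / 8 : ℝ) ^ n ≤ (1 / 4) ^ n := by gcongr; norm_num
  calc (1 / 8 : ℝ) ^ n * T n a b (h n)
      ≤ (1 / 8 : ℝ) ^ n * (‖h‖ + 2 ^ n * (12 * (|a| + |b|))) := by gcongr; linarith
    _ = (1 / 8 : ℝ) ^ n * ‖h‖ + ((1 / 8 : ℝ) ^ n * 2 ^ n) * (12 * (|a| + |b|)) := by ring
    _ ≤ (1 / 4) ^ n * ‖h‖ + (1 / 4) ^ n * (12 * (|a| + |b|)) := by
        rw [h4]
        gcongr
    _ = _ := by ring

/-- The second component of the norm. -/
noncomputable def Q (a b : ℝ) (h : l2) : ℝ :=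
  |a| + |b| + ∑' n : ℕ, (1 / 8 : ℝ) ^ n * T n a b (h n)

noncomputable instance : Norm X := ⟨fun x => max ‖x.2.2‖ (Q x.1 x.2.1 x.2.2)⟩

theorem norm_def (x : X) : ‖x‖ = max ‖x.2.2‖ (Q x.1 x.2.1 x.2.2) := rfl

theorem tsum_nonneg' (a b : ℝ) (h : l2) : 0 ≤ ∑' n : ℕ, (1 / 8 : ℝ) ^ n * T n a b (h n) :=
  tsum_nonneg fun n => mul_nonneg (by positivity) (T_nonneg _ _ _ _)

theorem Q_bound (a b : ℝ) (h : l2) : Q a b h ≤ 2 * ‖h‖ + 25 * (|a| + |b|) := by
  have h1 : HasSum (fun n : ℕ => (1 / 4 : ℝ) ^ n * (‖h‖ + 12 * (|a| + |b|)))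
      ((1 - 1 / 4)⁻¹ * (‖h‖ + 12 * (|a| + |b|))) :=
    (hasSum_geometric_of_lt_one (by norm_num) (by norm_num)).mul_right _
  have h2 : ∑' n : ℕ, (1 / 8 : ℝ) ^ n * T n a b (h n) ≤
      (1 - 1 / 4)⁻¹ * (‖h‖ + 12 * (|a| + |b|)) := by
    rw [← h1.tsum_eq]
    refine (summ a b h).tsum_le_tsum (fun n => ?_) h1.summable
    have h2 := T_bound n a b (h n)
    have h3 := coord_le h n
    have h4 : (1 / 8 : ℝ) ^ n * 2 ^ n = (1 / 4) ^ n := by
      rw [← mul_pow]; norm_num
    have h5 : (1 / 8 : ℝ) ^ n ≤ (1 / 4) ^ n := by gcongr; norm_num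
    calc (1 / 8 : ℝ) ^ n * T n a b (h n)
        ≤ (1 / 8 : ℝ) ^ n * (‖h‖ + 2 ^ n * (12 * (|a| + |b|))) := by gcongr; linarith
      _ = (1 / 8 : ℝ) ^ n * ‖h‖ + ((1 / 8 : ℝ) ^ n * 2 ^ n) * (12 * (|a| + |b|)) := by ring
      _ ≤ (1 / 4) ^ n * ‖h‖ + (1 / 4) ^ n * (12 * (|a| + |b|)) := by
          rw [h4]
          gcongr
      _ = _ := by ring
  unfold Q
  have h3 := norm_nonneg h
  have h4 := abs_nonneg a
  have h5 := abs_nonneg b
  norm_num at h2
  linarith

theorem core : NormedSpace.Core ℝ X where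
  norm_nonneg x := le_max_of_le_left (norm_nonneg _)
  norm_smul r x := by
    have h1 : (r • x).2.2 = r • x.2.2 := rfl
    have h2 : (r • x).1 = r * x.1 := rfl
    have h3 : (r • x).2.1 = r * x.2.1 := rfl
    rw [norm_def, norm_def, h1, h2, h3, norm_smul, Real.norm_eq_abs,
      mul_max_of_nonneg _ _ (abs_nonneg r)]
    congr 1
    unfold Q
    rw [mul_add, mul_add, ← abs_mul, ← abs_mul, ← tsum_mul_left]
    congr 1
    refine tsum_congr fun n => ?_
    have h4 : (r • x.2.2) n = r * x.2.2 n := rfl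
    rw [h4, T_mul]
    ring
  norm_triangle x y := by
    have h1 : (x + y).2.2 = x.2.2 + y.2.2 := rfl
    have h2 : (x + y).1 = x.1 + y.1 := rfl
    have h3 : (x + y).2.1 = x.2.1 + y.2.1 := rfl
    rw [norm_def, h1, h2, h3]
    refine max_le ?_ ?_
    · exact (norm_add_le _ _).trans (add_le_add (le_max_left _ _) (le_max_left _ _))
    · refine le_trans ?_ (add_le_add (le_max_right _ _) (le_max_right _ _))
      unfold Q
      have h4 := abs_add_le x.1 y.1
      have h5 := abs_add_le x.2.1 y.2.1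
      have h6 : ∑' n : ℕ, (1 / 8 : ℝ) ^ n * T n (x.1 + y.1) (x.2.1 + y.2.1) ((x.2.2 + y.2.2) n) ≤
          ∑' n : ℕ, (1 / 8 : ℝ) ^ n * T n x.1 x.2.1 (x.2.2 n) +
            ∑' n : ℕ, (1 / 8 : ℝ) ^ n * T n y.1 y.2.1 (y.2.2 n) := by
        rw [← (summ x.1 x.2.1 x.2.2).tsum_add (summ y.1 y.2.1 y.2.2)]
        refine (summ _ _ _).tsum_le_tsum (fun n => ?_)
          ((summ x.1 x.2.1 x.2.2).add (summ y.1 y.2.1 y.2.2))
        have h7 : (x.2.2 + y.2.2) n = x.2.2 n + y.2.2 n := rfl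
        rw [h7, ← mul_add]
        gcongr
        exact T_add _ _ _ _ _ _ _
      linarith
  norm_eq_zero_iff x := by
    constructor
    · intro h
      rw [norm_def] at h
      have h1 : ‖x.2.2‖ = 0 := le_antisymm ((le_max_left _ _).trans h.le) (norm_nonneg _)
      have h2 : Q x.1 x.2.1 x.2.2 ≤ 0 := (le_max_right _ _).trans h.le
      have h3 := tsum_nonneg' x.1 x.2.1 x.2.2
      unfold Q at h2
      have h4 := abs_nonneg x.1
      have h5 := abs_nonneg x.2.1
      have h6 : x.1 = 0 := abs_eq_zero.mp (by linarith)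
      have h7 : x.2.1 = 0 := abs_eq_zero.mp (by linarith)
      have h8 : x.2.2 = 0 := norm_eq_zero.mp h1
      exact Prod.ext h6 (Prod.ext h7 h8)
    · rintro rfl
      rw [norm_def]
      have h1 : (0 : X).2.2 = 0 := rfl
      have h2 : (0 : X).1 = 0 := rfl
      have h3 : (0 : X).2.1 = 0 := rfl
      rw [h1, h2, h3, norm_zero]
      have h4 := Q_bound 0 0 0
      have h5 : 0 ≤ Q 0 0 0 := by
        unfold Q
        have := tsum_nonneg' 0 0 0
        positivity
      norm_num at h4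
      exact max_eq_left h4

noncomputable instance : NormedAddCommGroup X := NormedAddCommGroup.ofCore core
noncomputable instance : NormedSpace ℝ X := NormedSpace.ofCore core

/-! ### The projection -/

/-- The quotient map `x ↦ (a, b)`. -/
noncomputable def q : X →ₗ[ℝ] ℝ × ℝ where
  toFun x := (x.1, x.2.1)
  map_add' _ _ := rfl
  map_smul' _ _ := rfl

/-- The subspace `{(0, 0, h)}`. -/
noncomputable def G : Submodule ℝ X := LinearMap.ker q

theorem mem_G (x : X) : x ∈ G ↔ x.1 = 0 ∧ x.2.1 = 0 := by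
  rw [G, LinearMap.mem_ker]
  exact Prod.ext_iff

/-- The metric projection. -/
noncomputable def pr (x : X) : X := ((0 : ℝ), (0 : ℝ), x.2.2 - wv x.1 x.2.1)

noncomputable def phi (a b : ℝ) : ℝ := |a| + |b| + ∑' n : ℕ, (1 / 8 : ℝ) ^ n * nn n a b

theorem T_w (n : ℕ) (a b : ℝ) : T n a b (w n a b) = nn n a b := by
  rw [T_eq]; simp

theorem Q_wv (a b : ℝ) : Q a b (wv a b) = phi a b := by
  unfold Q phi
  congr 1
  exact tsum_congr fun n => by rw [wv_apply, T_w]

theorem summ_nn (a b : ℝ) : Summable fun n : ℕ => (1 / 8 : ℝ) ^ n * nn n a b := by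
  have := summ a b (wv a b)
  refine this.congr fun n => ?_
  rw [wv_apply, T_w]

theorem norm_sub_pr (x : X) : ‖x - pr x‖ = phi x.1 x.2.1 := by
  have h1 : (x - pr x).1 = x.1 := sub_zero _
  have h2 : (x - pr x).2.1 = x.2.1 := sub_zero _
  have h3 : (x - pr x).2.2 = wv x.1 x.2.1 := sub_sub_cancel _ _
  rw [norm_def, h1, h2, h3, Q_wv]
  apply max_eq_right
  refine (wv_norm _ _).trans ?_
  have h4 : 0 ≤ ∑' n : ℕ, (1 / 8 : ℝ) ^ n * nn n x.1 x.2.1 :=
    tsum_nonneg fun n => mul_nonneg (by positivity) (nn_nonneg _ _ _)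
  have h5 := abs_nonneg x.2.1
  unfold phi
  linarith

theorem phi_le (x g : X) : phi x.1 x.2.1 ≤ Q x.1 x.2.1 (x.2.2 - g.2.2) ∧
    (Q x.1 x.2.1 (x.2.2 - g.2.2) ≤ phi x.1 x.2.1 → x.2.2 - g.2.2 = wv x.1 x.2.1) := by
  have hle : ∀ n : ℕ, (1 / 8 : ℝ) ^ n * nn n x.1 x.2.1 ≤
      (1 / 8 : ℝ) ^ n * T n x.1 x.2.1 ((x.2.2 - g.2.2) n) := by
    intro n
    rw [T_eq]
    have := abs_nonneg ((x.2.2 - g.2.2) n - w n x.1 x.2.1)
    gcongr
    linarith
  constructor
  · unfold phi Q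
    have := (summ_nn x.1 x.2.1).tsum_le_tsum hle (summ _ _ (x.2.2 - g.2.2))
    linarith
  · intro h
    ext n
    by_contra hne
    have hlt : (1 / 8 : ℝ) ^ n * nn n x.1 x.2.1 <
        (1 / 8 : ℝ) ^ n * T n x.1 x.2.1 ((x.2.2 - g.2.2) n) := by
      rw [T_eq]
      have : 0 < |(x.2.2 - g.2.2) n - w n x.1 x.2.1| := by
        rw [abs_pos]
        exact sub_ne_zero.mpr hne
      gcongr
      linarith
    have := (summ_nn x.1 x.2.1).tsum_lt_tsum hle hlt (summ _ _ (x.2.2 - g.2.2))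
    unfold phi Q at h
    linarith

theorem norm_sub_of_mem (x g : X) (hg : g ∈ G) : Q x.1 x.2.1 (x.2.2 - g.2.2) ≤ ‖x - g‖ := by
  rw [mem_G] at hg
  have h1 : (x - g).1 = x.1 := by
    change x.1 - g.1 = x.1
    rw [hg.1, sub_zero]
  have h2 : (x - g).2.1 = x.2.1 := by
    change x.2.1 - g.2.1 = x.2.1
    rw [hg.2, sub_zero]
  have h3 : (x - g).2.2 = x.2.2 - g.2.2 := rfl
  rw [norm_def, h1, h2, h3]
  exact le_max_right _ _

theorem isMetricProjection : IsMetricProjection (G : Set X) pr := by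
  intro x
  have hmem : pr x ∈ G := by
    rw [mem_G]; exact ⟨rfl, rfl⟩
  refine ⟨hmem, ?_, ?_⟩
  · intro g hg
    rw [norm_sub_pr]
    exact (phi_le x g).1.trans (norm_sub_of_mem x g hg)
  · intro g hg hmin
    have h1 := hmin (pr x) hmem
    rw [norm_sub_pr] at h1
    have h2 := (phi_le x g).2 ((norm_sub_of_mem x g hg).trans h1)
    have hg' : g ∈ G := hg
    rw [mem_G] at hg'
    have h3 : g.2.2 = x.2.2 - wv x.1 x.2.1 := by rw [← h2]; abel
    exact Prod.ext hg'.1 (Prod.ext hg'.2 h3)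

theorem norm_le (x : X) : ‖x‖ ≤ 52 * ‖((x.1, x.2.1, x.2.2) : ℝ × ℝ × l2)‖ := by
  have h1 : |x.1| ≤ ‖((x.1, x.2.1, x.2.2) : ℝ × ℝ × l2)‖ := norm_fst_le (x.1, x.2.1, x.2.2)
  have h0 : ‖((x.2.1, x.2.2) : ℝ × l2)‖ ≤ ‖((x.1, x.2.1, x.2.2) : ℝ × ℝ × l2)‖ :=
    norm_snd_le (x.1, x.2.1, x.2.2)
  have h2 : |x.2.1| ≤ ‖((x.1, x.2.1, x.2.2) : ℝ × ℝ × l2)‖ := (norm_fst_le (x.2.1, x.2.2)).trans h0
  have h3 : ‖x.2.2‖ ≤ ‖((x.1, x.2.1, x.2.2) : ℝ × ℝ × l2)‖ := (norm_snd_le (x.2.1, x.2.2)).trans h0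
  rw [norm_def]
  have h4 := Q_bound x.1 x.2.1 x.2.2
  have h5 := norm_nonneg x.2.2
  exact max_le (by linarith) (by linarith)

theorem abs_add_abs_le (x : X) : |x.1| + |x.2.1| ≤ ‖x‖ := by
  rw [norm_def]
  refine le_trans ?_ (le_max_right _ _)
  have := tsum_nonneg' x.1 x.2.1 x.2.2
  unfold Q
  linarith

theorem norm_ge (x : X) : ‖((x.1, x.2.1, x.2.2) : ℝ × ℝ × l2)‖ ≤ ‖x‖ := by
  have h1 := abs_add_abs_le x
  have h2 := abs_nonneg x.1
  have h3 := abs_nonneg x.2.1
  have h4 : ‖x.2.2‖ ≤ ‖x‖ := by rw [norm_def]; exact le_max_left _ _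
  rw [Prod.norm_def, Prod.norm_def]
  refine max_le ?_ (max_le ?_ h4)
  · simp only [Real.norm_eq_abs]; linarith
  · simp only [Real.norm_eq_abs]; linarith

/-- `X` is `ℝ × ℝ × ℓ²` with an equivalent norm. -/
noncomputable def equiv : X ≃L[ℝ] (ℝ × ℝ × l2) :=
  LinearEquiv.toContinuousLinearEquivOfBounds
    ({ toFun := fun x => (x.1, x.2.1, x.2.2), invFun := fun y => y, map_add' := fun _ _ => rfl,
       map_smul' := fun _ _ => rfl, left_inv := fun _ => rfl, right_inv := fun _ => rfl } :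
      X ≃ₗ[ℝ] (ℝ × ℝ × l2)) 1 52
    (fun x => by rw [one_mul]; exact norm_ge x) (fun y => norm_le (y : X))

theorem equiv_apply (x : X) : equiv x = (x.1, x.2.1, x.2.2) := rfl

/-- The inclusion of `ℓ²`. -/
noncomputable def inc : l2 →L[ℝ] X :=
  (equiv.symm : (ℝ × ℝ × l2) →L[ℝ] X).comp
    ((ContinuousLinearMap.inr ℝ ℝ (ℝ × l2)).comp (ContinuousLinearMap.inr ℝ ℝ l2))

theorem inc_apply (h : l2) : inc h = ((0 : ℝ), (0 : ℝ), h) := rfl

theorem w_continuous (n : ℕ) : Continuous fun p : ℝ × ℝ => w n p.1 p.2 := by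
  unfold w P xx
  fun_prop

/-- values of a functional on the unit vectors tend to zero -/
theorem functional_tendsto (g : l2 →L[ℝ] ℝ) :
    Tendsto (fun n : ℕ => g (lp.single 2 n (1 : ℝ))) atTop (𝓝 0) := by
  set y : l2 := (InnerProductSpace.toDual ℝ l2).symm g with hy
  have h1 : ∀ n : ℕ, g (lp.single 2 n (1 : ℝ)) = y n := by
    intro n
    have : g (lp.single 2 n (1 : ℝ)) = inner ℝ y (lp.single 2 n (1 : ℝ)) := by
      rw [hy, InnerProductSpace.toDual_symm_apply]
    rw [this, lp.inner_single_right]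
    simp
  have h2 : Summable fun n : ℕ => ‖y n‖ ^ (2 : ENNReal).toReal := (lp.memℓp y).summable (by norm_num)
  have h3 := h2.tendsto_atTop_zero
  have h4 : Tendsto (fun n : ℕ => ‖y n‖ ^ 2) atTop (𝓝 0) := by
    refine h3.congr fun n => ?_
    norm_num
  have h5 : Tendsto (fun n : ℕ => Real.sqrt (‖y n‖ ^ 2)) atTop (𝓝 0) := by
    have := (Real.continuous_sqrt.tendsto 0).comp h4
    rwa [Real.sqrt_zero] at this
  rw [tendsto_zero_iff_norm_tendsto_zero]
  refine h5.congr fun n => ?_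
  rw [Real.sqrt_sq (norm_nonneg _), h1]

theorem single_smul (n : ℕ) (c : ℝ) : (lp.single 2 n c : l2) = c • lp.single 2 n (1 : ℝ) := by
  rw [← lp.single_smul]; simp

theorem continuous_g (g : l2 →L[ℝ] ℝ) : Continuous fun p : ℝ × ℝ => g (wv p.1 p.2) := by
  rw [continuous_iff_continuousAt]
  intro p₀
  refine continuousAt_of_locally_uniform_approx_of_continuousAt ?_
  intro u hu
  obtain ⟨ε, hε, hεu⟩ := Metric.mem_uniformity_dist.mp hu
  have hR : 0 < |p₀.1| + 1 := by positivity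
  obtain ⟨N, hN⟩ := Metric.tendsto_atTop.mp (functional_tendsto g) (ε / (|p₀.1| + 1)) (by positivity)
  refine ⟨Metric.ball p₀ 1, Metric.ball_mem_nhds _ one_pos,
    fun p => ∑ n ∈ Finset.range N, w n p.1 p.2 * g (lp.single 2 n (1 : ℝ)), ?_, ?_⟩
  · apply Continuous.continuousAt
    exact continuous_finsetSum _ fun n _ => (w_continuous n).mul continuous_const
  · intro p hp
    apply hεu
    change dist (g (wv p.1 p.2))
      (∑ n ∈ Finset.range N, w n p.1 p.2 * g (lp.single 2 n (1 : ℝ))) < ε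
    have hp1 : |p.1| < |p₀.1| + 1 := by
      have h1 : dist p.1 p₀.1 < 1 := lt_of_le_of_lt (le_max_left _ _) (Metric.mem_ball.mp hp)
      rw [Real.dist_eq] at h1
      have h2 : |p.1| ≤ |p.1 - p₀.1| + |p₀.1| := by
        have := abs_add_le (p.1 - p₀.1) p₀.1
        rwa [sub_add_cancel] at this
      linarith
    rcases wv_cases p.1 p.2 with h | ⟨m, h⟩
    · have hall : ∀ n, w n p.1 p.2 = 0 := by
        intro n
        rw [← wv_apply, h]; rfl
      simp [h, hall, hε]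
    · have hall : ∀ n, n ≠ m → w n p.1 p.2 = 0 := by
        intro n hn
        rw [← wv_apply, h]
        simp [hn]
      have hg : g (wv p.1 p.2) = w m p.1 p.2 * g (lp.single 2 m (1 : ℝ)) := by
        rw [h, single_smul, map_smul, smul_eq_mul]
      by_cases hm : m < N
      · have : ∑ n ∈ Finset.range N, w n p.1 p.2 * g (lp.single 2 n (1 : ℝ)) =
            w m p.1 p.2 * g (lp.single 2 m (1 : ℝ)) := by
          rw [Finset.sum_eq_single m]
          · intro n _ hn; rw [hall n hn, zero_mul]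
          · intro hm'; exact absurd (Finset.mem_range.mpr hm) hm'
        rw [hg, this, dist_self]
        exact hε
      · have : ∑ n ∈ Finset.range N, w n p.1 p.2 * g (lp.single 2 n (1 : ℝ)) = 0 := by
          refine Finset.sum_eq_zero fun n hn => ?_
          rw [hall n (by rw [Finset.mem_range] at hn; omega), zero_mul]
        rw [hg, this, Real.dist_eq, sub_zero, abs_mul]
        have h1 := hN m (not_lt.mp hm)
        rw [Real.dist_eq, sub_zero] at h1
        have h2 := w_bound m p.1 p.2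
        calc |w m p.1 p.2| * |g (lp.single 2 m (1 : ℝ))|
            ≤ (|p₀.1| + 1) * |g (lp.single 2 m (1 : ℝ))| := by
              gcongr; linarith
          _ < (|p₀.1| + 1) * (ε / (|p₀.1| + 1)) := by gcongr
          _ = ε := by field_simp

theorem weaklyContinuous : WeaklyContinuous pr := by
  unfold WeaklyContinuous
  apply WeakBilin.continuous_of_continuous_eval
  intro f
  have hev : ∀ ℓ : X →L[ℝ] ℝ, Continuous fun x : WeakSpace ℝ X => ℓ ((toWeakSpace ℝ X).symm x) :=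
    fun ℓ => WeakBilin.eval_continuous (topDualPairing ℝ X).flip ℓ
  set c1 : X →L[ℝ] ℝ := (ContinuousLinearMap.fst ℝ ℝ (ℝ × l2)).comp (equiv : X →L[ℝ] _) with hc1
  set c2 : X →L[ℝ] ℝ := ((ContinuousLinearMap.fst ℝ ℝ l2).comp
    (ContinuousLinearMap.snd ℝ ℝ (ℝ × l2))).comp (equiv : X →L[ℝ] _) with hc2
  have hc1' : ∀ x : X, c1 x = (equiv x).1 := fun _ => rfl
  have hc2' : ∀ x : X, c2 x = (equiv x).2.1 := fun _ => rfl
  set e1 : X := equiv.symm ((1 : ℝ), (0 : ℝ), (0 : l2)) with he1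
  set e2 : X := equiv.symm ((0 : ℝ), (1 : ℝ), (0 : l2)) with he2
  have key0 : ∀ x : X, pr x = x - c1 x • e1 - c2 x • e2 - inc (wv (c1 x) (c2 x)) := by
    intro x
    apply equiv.injective
    rw [map_sub, map_sub, map_sub, map_smul, map_smul, he1, he2,
      ContinuousLinearEquiv.apply_symm_apply, ContinuousLinearEquiv.apply_symm_apply, hc1', hc2']
    have h1 : equiv (pr x) = ((0 : ℝ), (0 : ℝ), (equiv x).2.2 - wv (equiv x).1 (equiv x).2.1) := rfl
    have h2 : equiv (inc (wv (equiv x).1 (equiv x).2.1)) =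
      ((0 : ℝ), (0 : ℝ), wv (equiv x).1 (equiv x).2.1) := rfl
    rw [h1, h2]
    generalize equiv x = y
    refine Prod.ext ?_ (Prod.ext ?_ ?_) <;> simp
  obtain ⟨g, hg⟩ : ∃ g : l2 →L[ℝ] ℝ, ∀ h, g h = f (inc h) := ⟨f.comp inc, fun _ => rfl⟩
  have key : ∀ x : X, f (pr x) = f x - c1 x * f e1 - c2 x * f e2 - g (wv (c1 x) (c2 x)) := by
    intro x
    rw [key0, map_sub, map_sub, map_sub, map_smul, map_smul, smul_eq_mul, smul_eq_mul, hg]
  have k1 := hev f
  have k2 := hev c1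
  have k3 := hev c2
  clear_value c1 c2 e1 e2
  have k23 : Continuous fun x : WeakSpace ℝ X =>
    ((c1 ((toWeakSpace ℝ X).symm x), c2 ((toWeakSpace ℝ X).symm x)) : ℝ × ℝ) := k2.prodMk k3
  have k4 : Continuous fun x : WeakSpace ℝ X =>
      g (wv (c1 ((toWeakSpace ℝ X).symm x)) (c2 ((toWeakSpace ℝ X).symm x))) :=
    (continuous_g g).comp k23
  have k5 := ((k1.sub (k2.mul_const (f e1))).sub (k3.mul_const (f e2))).sub k4
  exact k5.congr fun x => (key _).symm

theorem not_continuous : ¬ Continuous pr := by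
  intro hc
  -- the points `(1, 2^{-n}, 0)` converge to `(1, 0, 0)`
  set x : ℕ → X := fun n => equiv.symm ((1 : ℝ), (1 / 2 : ℝ) ^ n, (0 : l2)) with hx
  have hlim : Tendsto x atTop (𝓝 (equiv.symm ((1 : ℝ), (0 : ℝ), (0 : l2)))) := by
    apply (equiv.symm.continuous.tendsto _).comp
    refine Tendsto.prodMk_nhds tendsto_const_nhds (Tendsto.prodMk_nhds ?_ tendsto_const_nhds)
    exact tendsto_pow_atTop_nhds_zero_of_lt_one (by norm_num) (by norm_num)
  have h1 := (hc.tendsto _).comp hlim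
  have hw0 : wv 1 0 = 0 := by
    ext n
    rw [wv_apply]
    apply w_zero_of
    unfold xx
    have : (2 : ℝ) ^ (n + 2) * (0 - (1 / 2) ^ n * 1) = -4 := by
      have h3 : (2 : ℝ) ^ (n + 2) * (1 / 2) ^ n = 4 := by
        rw [pow_add, mul_assoc, mul_comm ((2 : ℝ) ^ 2), ← mul_assoc, ← mul_pow]
        norm_num
      linarith
    rw [this]
    norm_num
  have hwn : ∀ n, w n 1 ((1 / 2) ^ n) = 1 := by
    intro n
    unfold w P xx
    simp
    norm_num
  have h2 := Metric.tendsto_atTop.mp h1 1 one_pos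
  obtain ⟨N, hN⟩ := h2
  have h3 := hN N le_rfl
  rw [dist_eq_norm] at h3
  have h4 : ‖(pr (x N) - pr (equiv.symm ((1 : ℝ), (0 : ℝ), (0 : l2)))).2.2‖ < 1 :=
    lt_of_le_of_lt (by rw [norm_def]; exact le_max_left _ _) h3
  have h5 : (pr (x N) - pr (equiv.symm ((1 : ℝ), (0 : ℝ), (0 : l2)))).2.2 =
      (0 - wv 1 ((1 / 2) ^ N)) - (0 - wv 1 0) := rfl
  rw [h5, hw0] at h4
  have h6 : |((0 : l2) - wv 1 ((1 / 2) ^ N) - (0 - 0)) N| < 1 := lt_of_le_of_lt (coord_le _ N) h4
  have h7 : ((0 : l2) - wv 1 ((1 / 2) ^ N) - (0 - 0)) N = -1 := by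
    have : ((0 : l2) - wv 1 ((1 / 2) ^ N) - (0 - 0)) N = 0 - w N 1 ((1 / 2) ^ N) - (0 - 0) := rfl
    rw [this, hwn]; norm_num
  rw [h7] at h6
  norm_num at h6

/-- There are a real Banach space `E`, isomorphic to `ℝ × ℝ × ℓ²` and hence to a Hilbert space, and
a closed linear subspace `G` of codimension two which is a Chebyshev set, whose metric projection
is continuous from the weak to the weak topology but not from the norm to the norm topology. -/
theorem result : ∃ (E : Type) (_ : NormedAddCommGroup E) (_ : NormedSpace ℝ E) (G : Submodule ℝ E)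
    (π : E → E), CompleteSpace E ∧ Nonempty (E ≃L[ℝ] (ℝ × ℝ × lp (fun _ : ℕ => ℝ) 2)) ∧
      IsClosed (G : Set E) ∧ Module.finrank ℝ (E ⧸ G) = 2 ∧
      IsMetricProjection (G : Set E) π ∧ WeaklyContinuous π ∧ ¬ Continuous π := by
  refine ⟨X, inferInstance, inferInstance, G, pr, ?_, ⟨equiv⟩, ?_, ?_, isMetricProjection,
    weaklyContinuous, not_continuous⟩
  · exact (completeSpace_congr (e := equiv.toEquiv) equiv.isUniformEmbedding).mpr inferInstance
  · have : (G : Set X) = {x | (equiv x).1 = 0 ∧ (equiv x).2.1 = 0} := by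
      ext x; exact mem_G x
    rw [this]
    exact (isClosed_eq (continuous_fst.comp equiv.continuous) continuous_const).inter
      (isClosed_eq (continuous_fst.comp (continuous_snd.comp equiv.continuous)) continuous_const)
  · have hs : Function.Surjective q := fun y => ⟨((y.1, y.2, 0) : ℝ × ℝ × l2), rfl⟩
    have := (LinearMap.quotKerEquivOfSurjective q hs).finrank_eq
    rw [G, this]
    simp

end Pool.Agent.Results.MP_97ba4e_an.WeakNotNorm
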